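import Mathlib
import Pool.Agent.Helper669.Dom2

set_option autoImplicit false

/-!
# Strong failure of the polarized relation at all cardinals of the cofinality of `𝔡`
-/

namespace Pool.Agent.Y582.SD

open Cardinal Filter Pool.Agent.Helper669.Dom Pool.Agent.Helper669.Dom2

/-- countable splitting partitions -/
theorem splits_omega (hr : Splits dNum) {ι : Type} (hι : #ι < dNum) (E : ι → Set ℕ)
    (hE : ∀ i, (E i).Infinite) :
    ∃ R : ℕ → ℕ, ∀ i k, {n | n ∈ E i ∧ R n = k}.Infinite := by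
  classical
  let St : Type := {Q : Set ℕ // ∀ i, (E i ∩ Q).Infinite}
  have hex : ∀ Q : St, ∃ R : Set ℕ, ∀ i, ((E i ∩ Q.1) ∩ R).Infinite ∧
      ((E i ∩ Q.1) \ R).Infinite := fun Q => hr ι (fun i => E i ∩ Q.1) hι Q.2
  choose R hR using hex
  let nxt : St → St := fun Q => ⟨Q.1 \ R Q, fun i => by
    have h := (hR Q i).2
    rwa [Set.inter_sdiff_assoc] at h⟩
  let Q : ℕ → St := fun n => Nat.rec ⟨Set.univ, fun i => by simpa using hE i⟩
    (fun _ q => nxt q) n
  have hQ : ∀ n, (Q (n + 1)).1 = (Q n).1 \ R (Q n) := fun n => rfl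
  have hanti : ∀ m n, m ≤ n → (Q n).1 ⊆ (Q m).1 := by
    intro m n h
    induction n, h using Nat.le_induction with
    | base => exact subset_rfl
    | succ n _ ih =>
      rw [hQ]
      exact Set.sdiff_subset.trans ih
  -- the pieces
  let P : ℕ → Set ℕ := fun k => (Q k).1 ∩ R (Q k)
  have hdisj : ∀ n k l, n ∈ P k → n ∈ P l → k = l := by
    have aux : ∀ n k l, k < l → n ∈ P k → n ∉ P l := by
      intro n k l hkl hk hl
      have h1 : n ∈ (Q (k + 1)).1 := hanti (k + 1) l hkl hl.1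
      rw [hQ] at h1
      exact h1.2 hk.2
    intro n k l hk hl
    rcases lt_trichotomy k l with h | h | h
    · exact absurd hl (aux n k l h hk)
    · exact h
    · exact absurd hk (aux n l k h hl)
  refine ⟨fun n => if h : ∃ k, n ∈ P k then h.choose else 0, fun i k => ?_⟩
  have h1 : ((E i ∩ (Q k).1) ∩ R (Q k)).Infinite := (hR (Q k) i).1
  refine h1.mono ?_
  rintro n ⟨⟨hn1, hn2⟩, hn3⟩
  have hP : ∃ k, n ∈ P k := ⟨k, hn2, hn3⟩
  refine ⟨hn1, ?_⟩
  show (if h : ∃ k, n ∈ P k then h.choose else 0) = k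
  rw [dif_pos hP]
  exact hdisj n _ _ hP.choose_spec ⟨hn2, hn3⟩

/-- The colouring of `𝔡 × ω`: for every infinite `B`, all rows beyond some point take every value
infinitely often on `B`. -/
theorem base (hr : Splits dNum) :
    ∃ c : dNum.ord.ToType → ℕ → ℕ, ∀ B : Set ℕ, B.Infinite → ∃ x0, ∀ x, x0 < x → ∀ k,
      {b | b ∈ B ∧ c x b = k}.Infinite := by
  classical
  obtain ⟨F, hF, hcard⟩ := exists_dominating
  let X : Type := dNum.ord.ToType
  have hX : #X = dNum := by rw [mk_toType, card_ord]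
  obtain ⟨e⟩ : Nonempty (X ≃ F) := Cardinal.eq.1 (hX.trans hcard.symm)
  let g : X → ℕ → ℕ := fun x m => (e x).1 m + m + 1
  have hIio : ∀ x : X, #(Set.Iio x) < dNum := fun x => by
    have := Cardinal.mk_Iio_lt x (by rw [Cardinal.mk_toType, Cardinal.card_ord,
      Ordinal.type_toType])
    rwa [Cardinal.mk_toType, Cardinal.card_ord] at this
  have hchoice : ∀ x : X, ∃ (a : ℕ → ℕ) (R : ℕ → ℕ), StrictMono a ∧ a 0 = 0 ∧
      ∀ j < x, ∀ k, {n | n ∈ {n | ∃ m, a n ≤ m ∧ g j m ≤ a (n + 1)} ∧ R n = k}.Infinite := by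
    intro x
    obtain ⟨a, ha, h0, h⟩ := partition_lemma (ι := Set.Iio x) (hIio x) (fun j => g j.1)
    obtain ⟨R, hR⟩ := splits_omega hr (ι := Set.Iio x) (hIio x)
      (fun j => {n | ∃ m, a n ≤ m ∧ g j.1 m ≤ a (n + 1)})
      (fun j => Set.infinite_of_forall_exists_gt fun N => by
        obtain ⟨n, hn, hm⟩ := h j (N + 1)
        exact ⟨n, hm, by omega⟩)
    exact ⟨a, R, ha, h0, fun j hj => hR ⟨j, hj⟩⟩
  choose a R ha h0 hR using hchoice
  choose bl hbl1 hbl2 using fun x m => exists_block (ha x) (h0 x) m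
  refine ⟨fun x m => R x (bl x m), fun B hB => ?_⟩
  obtain ⟨nx, hnx⟩ := exists_nx hB
  obtain ⟨f, hf, hev⟩ := hF nx
  obtain ⟨x0, hx0⟩ := e.surjective ⟨f, hf⟩
  obtain ⟨m0, hm0⟩ := eventually_atTop.1 hev
  have hgx : ∀ m ≥ m0, nx m < g x0 m := by
    intro m hm
    have h1 := hm0 m hm
    show nx m < (e x0).1 m + m + 1
    rw [hx0]
    show nx m < f m + m + 1
    omega
  refine ⟨x0, fun x hx k => ?_⟩
  refine Set.infinite_of_forall_exists_gt fun M => ?_
  obtain ⟨n, ⟨⟨m, hm1, hm2⟩, hk⟩, hn⟩ := (hR x x0 hx k).exists_gt (max m0 (M + 1))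
  have hnm : n ≤ m := ((ha x).id_le n).trans hm1
  have h1 : m0 ≤ m := ((le_max_left _ _).trans hn.le).trans hnm
  have h2 := hgx m h1
  have h3 := (hnx m).2
  have h4 : a x n ≤ nx m := hm1.trans h3
  have h5 : nx m < a x (n + 1) := h2.trans_le hm2
  have h6 : bl x (nx m) = n := block_unique (ha x) (hbl1 x (nx m)) (hbl2 x (nx m)) h4 h5
  refine ⟨nx m, ⟨(hnx m).1, ?_⟩, ?_⟩
  · show R x (bl x (nx m)) = k
    rw [h6]
    exact hk
  · have : max m0 (M + 1) < n := hn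
    have h7 : M + 1 ≤ max m0 (M + 1) := le_max_right _ _
    omega

theorem bdd_of_cof {α : Type} [LinearOrder α] {S : Set α} (h : #S < Order.cof α) :
    ∃ b, ∀ s ∈ S, s < b := by
  have h2 : ¬ IsCofinal S := fun hc => absurd (Order.cof_le hc) (not_le.2 h)
  rw [IsCofinal] at h2
  push Not at h2
  exact h2

/-- A map between orders of the same cofinality: preimages of initial segments are bounded. -/
theorem exists_tukey {X Y : Type} [LinearOrder X] [LinearOrder Y] {κ : Cardinal.{0}}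
    (hX : Order.cof X = κ) (hY : Order.cof Y = κ) (hκ : κ.IsRegular) :
    ∃ h : Y → X, ∀ x0, ∃ b, ∀ y, h y ≤ x0 → y < b := by
  classical
  obtain ⟨C, hC, hCc⟩ := Order.exists_cof_eq (α := X)
  obtain ⟨D, hD, hDc⟩ := Order.exists_cof_eq (α := Y)
  let I : Type := κ.ord.ToType
  have hI : #I = κ := Cardinal.mk_ord_toType κ
  obtain ⟨e⟩ : Nonempty (I ≃ C) := Cardinal.eq.1 (by rw [hI, hCc, hX])
  obtain ⟨d⟩ : Nonempty (I ≃ D) := Cardinal.eq.1 (by rw [hI, hDc, hY])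
  have hIic : ∀ i : I, #(Set.Iic i) < κ := fun i => by
    have h3 : #(Set.Iio i) < κ := by
      have := Cardinal.mk_Iio_lt i (by rw [Cardinal.mk_toType, Cardinal.card_ord,
        Ordinal.type_toType])
      rwa [Cardinal.mk_toType, Cardinal.card_ord] at this
    have h1 : Set.Iic i = insert i (Set.Iio i) := (Set.Iio_insert).symm
    rw [h1]
    exact (mk_insert_le).trans_lt (add_lt_of_lt hκ.aleph0_le h3
      (one_lt_aleph0.trans_le hκ.aleph0_le))
  have hH : ∀ i : I, ∃ b : X, ∀ j ≤ i, (e j).1 < b := by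
    intro i
    obtain ⟨b, hb⟩ := bdd_of_cof (α := X) (S := (fun j : I => (e j).1) '' Set.Iic i) (by
      rw [hX]
      exact mk_image_le.trans_lt (hIic i))
    exact ⟨b, fun j hj => hb _ ⟨j, hj, rfl⟩⟩
  choose H hH using hH
  have hidx : ∀ y : Y, ∃ i : I, y ≤ (d i).1 := by
    intro y
    obtain ⟨c, hc, hyc⟩ := hD y
    exact ⟨d.symm ⟨c, hc⟩, by simpa using hyc⟩
  let ix : Y → I := fun y => WellFounded.min (wellFounded_lt (α := I)) {i | y ≤ (d i).1} (hidx y)
  have hix : ∀ y, y ≤ (d (ix y)).1 := fun y =>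
    WellFounded.min_mem (wellFounded_lt (α := I)) {i | y ≤ (d i).1} (hidx y)
  refine ⟨fun y => H (ix y), fun x0 => ?_⟩
  obtain ⟨c, hc, hxc⟩ := hC x0
  let i0 : I := e.symm ⟨c, hc⟩
  have hi0 : x0 ≤ (e i0).1 := by simpa [i0] using hxc
  obtain ⟨b, hb⟩ := bdd_of_cof (α := Y) (S := (fun j : I => (d j).1) '' Set.Iic i0) (by
      rw [hY]
      exact mk_image_le.trans_lt (hIic i0))
  refine ⟨b, fun y hy => ?_⟩
  have h1 : ix y < i0 := by
    by_contra hcon
    have h2 := hH (ix y) i0 (not_lt.1 hcon)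
    exact absurd (h2.trans_le hy) (not_lt.2 hi0)
  exact (hix y).trans_lt (hb _ ⟨ix y, h1.le, rfl⟩)

/-- The colouring at every cardinal of the cofinality of `𝔡`. -/
theorem main (hr : Splits dNum) {μ : Cardinal.{0}} (hμ : μ.ord.cof = dNum.ord.cof) :
    ∃ c : μ.out → ℕ → ℕ, ∀ B : Set ℕ, B.Infinite →
      #{a | ∃ k, {b | b ∈ B ∧ c a b = k}.Finite} < μ := by
  classical
  obtain ⟨c, hc⟩ := base hr
  let X : Type := dNum.ord.ToType
  let Y : Type := μ.ord.ToType
  have hY : #Y = μ := by rw [mk_toType, card_ord]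
  have hreg : (dNum.ord.cof).IsRegular := by
    refine Cardinal.isRegular_cof ?_
    exact Cardinal.isSuccLimit_ord aleph0_lt_dNum.le
  obtain ⟨h, hh⟩ := exists_tukey (X := X) (Y := Y) (κ := dNum.ord.cof)
    (Ordinal.cof_toType _) ((Ordinal.cof_toType _).trans hμ) hreg
  obtain ⟨e⟩ : Nonempty (μ.out ≃ Y) := Cardinal.eq.1 ((mk_out _).trans hY.symm)
  refine ⟨fun a => c (h (e a)), fun B hB => ?_⟩
  obtain ⟨x0, hx0⟩ := hc B hB
  obtain ⟨b, hb⟩ := hh x0
  have h1 : e '' {a | ∃ k, {b | b ∈ B ∧ c (h (e a)) b = k}.Finite} ⊆ Set.Iio b := by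
    rintro _ ⟨a, ⟨k, hk⟩, rfl⟩
    refine hb _ (not_lt.1 fun hlt => ?_)
    exact (hx0 _ hlt k) hk
  have h2 : #(Set.Iio b) < μ := by
    have := Cardinal.mk_Iio_lt b (by rw [Cardinal.mk_toType, Cardinal.card_ord,
      Ordinal.type_toType])
    rwa [Cardinal.mk_toType, Cardinal.card_ord] at this
  have h3 := mk_le_mk_of_subset h1
  rw [Cardinal.mk_image_eq e.injective] at h3
  exact h3.trans_lt h2

theorem not_polarized {μ : Cardinal.{0}} {c : μ.out → ℕ → ℕ} (hc : ∀ B : Set ℕ, B.Infinite →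
    #{a | ∃ k, {b | b ∈ B ∧ c a b = k}.Finite} < μ) : ¬ StrongPolarized μ ℵ₀ := by
  classical
  intro hpos
  obtain ⟨e2⟩ : Nonempty ((ℵ₀ : Cardinal.{0}).out ≃ ℕ) :=
    Cardinal.eq.1 ((mk_out _).trans mk_nat.symm)
  obtain ⟨A, B, hA, hB, i, hi⟩ := hpos fun p q => if c p (e2 q) = 0 then 1 else 0
  have hBinf : (e2 '' B).Infinite := by
    rw [← Set.infinite_coe_iff, Cardinal.infinite_iff, Cardinal.mk_image_eq e2.injective, hB]
  have h1 := hc _ hBinf
  obtain ⟨a, ha, ha'⟩ : ∃ a ∈ A, a ∉ {a | ∃ k, {b | b ∈ e2 '' B ∧ c a b = k}.Finite} := by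
    by_contra hcon
    push Not at hcon
    have := mk_le_mk_of_subset (show A ⊆ _ from hcon)
    rw [hA] at this
    exact absurd this (not_le.2 h1)
  have h2 : ∀ k, {b | b ∈ e2 '' B ∧ c a b = k}.Infinite := by
    intro k hk
    exact ha' ⟨k, hk⟩
  obtain ⟨_, ⟨q0, hq0, rfl⟩, h3⟩ := (h2 0).nonempty
  obtain ⟨_, ⟨q1, hq1, rfl⟩, h4⟩ := (h2 1).nonempty
  have e0 := hi a ha q0 hq0
  have e1 := hi a ha q1 hq1
  rw [if_pos h3] at e0
  rw [if_neg (by rw [h4]; norm_num), ← e0] at e1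
  exact absurd e1 (by decide)

end Pool.Agent.Y582.SD
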